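import Mathlib

/-!
# Minimum covers of LCM `p`-groups for odd `p`

For an odd prime `p` and `k ≥ 2` let `A` be the group of functions `f : Z/p → Z/p^k` with sum zero,
let `W = A : C_p` with `C_p` acting by shifting the argument, and let `E` be the subgroup of all
elements of `W` whose function is killed by `p`. Then `E` has exponent `p`, `A` is homocyclic
abelian, the minimum covers of `{E, A}` have order `p |A|`, and none of them is an LCM-group.
-/

set_option autoImplicit false

namespace Pool.Agent.Results.MP_8c719a_al.MinCovers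

/-- A finite group. -/
structure FinGroup : Type 1 where
  carrier : Type
  [group : Group carrier]
  [finite : Finite carrier]

attribute [instance] FinGroup.group FinGroup.finite

/-- `G` is an LCM-group: for all `x`, `y` and all positive integers `n`, the order of `x ^ n * y`
divides the least common multiple of the orders of `x ^ n` and `y`. -/
def IsLCMGroup (G : Type) [Group G] : Prop :=
  ∀ (x : G) (n : ℕ), 0 < n → ∀ y : G,
    orderOf (x ^ n * y) ∣ Nat.lcm (orderOf (x ^ n)) (orderOf y)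

/-- `G` is an `F`-cover: every member of `F` is isomorphic to a subgroup of `G`. -/
def IsCover (F : Set FinGroup) (G : FinGroup) : Prop :=
  ∀ X ∈ F, ∃ f : X.carrier →* G.carrier, Function.Injective f

/-- `G` is a minimum `F`-cover: an `F`-cover of least order. -/
def IsMinCover (F : Set FinGroup) (G : FinGroup) : Prop :=
  IsCover F G ∧ ∀ H : FinGroup, IsCover F H → Nat.card G.carrier ≤ Nat.card H.carrier

/-- Two sets of finite groups are the same up to isomorphism of their members. -/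
def SameUpToIso (F F' : Set FinGroup) : Prop :=
  (∀ X ∈ F, ∃ Y ∈ F', Nonempty (X.carrier ≃* Y.carrier)) ∧
    (∀ Y ∈ F', ∃ X ∈ F, Nonempty (Y.carrier ≃* X.carrier))

/-! ### The groups -/

/-- Pairs `(f, s)` with `f : Z/p → Z/q` of sum zero and `s` in `Z/p`. -/
@[ext]
structure W (p q : ℕ) [NeZero p] where
  f : ZMod p → ZMod q
  s : ZMod p
  hf : ∑ x, f x = 0

variable {p q : ℕ} [NeZero p]

theorem sum_shift (g : ZMod p → ZMod q) (s : ZMod p) : ∑ x, g (x + s) = ∑ x, g x :=
  Equiv.sum_comp (Equiv.addRight s) g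

namespace W

instance : Mul (W p q) :=
  ⟨fun a b => ⟨fun x => a.f x + b.f (x + a.s), a.s + b.s, by
    rw [Finset.sum_add_distrib, a.hf, sum_shift b.f, b.hf, add_zero]⟩⟩
instance : One (W p q) := ⟨⟨fun _ => 0, 0, by simp⟩⟩
instance : Inv (W p q) :=
  ⟨fun a => ⟨fun x => -a.f (x + -a.s), -a.s, by
    rw [Finset.sum_neg_distrib, sum_shift a.f, a.hf, neg_zero]⟩⟩

@[simp] theorem mul_f (a b : W p q) : (a * b).f = fun x => a.f x + b.f (x + a.s) := rfl
@[simp] theorem mul_s (a b : W p q) : (a * b).s = a.s + b.s := rfl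
@[simp] theorem one_f : (1 : W p q).f = fun _ => 0 := rfl
@[simp] theorem one_s : (1 : W p q).s = 0 := rfl
@[simp] theorem inv_f (a : W p q) : (a⁻¹).f = fun x => -a.f (x + -a.s) := rfl
@[simp] theorem inv_s (a : W p q) : (a⁻¹).s = -a.s := rfl

instance : Group (W p q) :=
  Group.ofLeftAxioms
    (by
      intro a b c
      apply W.ext
      · funext x
        simp [add_assoc]
      · simp [add_assoc])
    (by
      intro a
      apply W.ext
      · funext x
        simp
      · simp)
    (by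
      intro a
      apply W.ext
      · funext x
        simp
      · simp)

instance [NeZero q] : Finite (W p q) :=
  Finite.of_injective (fun a : W p q => (a.f, a.s)) fun a b h => by
    simp only [Prod.mk.injEq] at h
    exact W.ext h.1 h.2

theorem pow_s (a : W p q) (n : ℕ) : (a ^ n).s = n * a.s := by
  induction n with
  | zero => simp
  | succ n ih =>
    rw [pow_succ, mul_s, ih]
    push_cast
    ring

theorem pow_f (a : W p q) (n : ℕ) (x : ZMod p) :
    (a ^ n).f x = ∑ i ∈ Finset.range n, a.f (x + i * a.s) := by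
  induction n with
  | zero => simp
  | succ n ih =>
    rw [pow_succ, mul_f, Finset.sum_range_succ]
    simp only [ih, pow_s]

end W

/-- The subgroup `A` of `W p q` of all `(f, 0)`. -/
def A (p q : ℕ) [NeZero p] : Subgroup (W p q) where
  carrier := {a | a.s = 0}
  mul_mem' := fun {a b} ha hb => by
    show a.s + b.s = 0
    rw [Set.mem_ofPred_eq] at ha hb
    rw [ha, hb, add_zero]
  one_mem' := rfl
  inv_mem' := fun {a} ha => by
    show -a.s = 0
    rw [Set.mem_ofPred_eq] at ha
    rw [ha, neg_zero]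

/-- The subgroup `E` of `W p q` of all `(f, s)` with `p f = 0`. -/
def E (p q : ℕ) [NeZero p] : Subgroup (W p q) where
  carrier := {a | ∀ x, (p : ZMod q) * a.f x = 0}
  mul_mem' := fun {a b} ha hb => by
    intro x
    show (p : ZMod q) * (a.f x + b.f (x + a.s)) = 0
    rw [mul_add, ha x, hb (x + a.s), add_zero]
  one_mem' := fun x => by simp
  inv_mem' := fun {a} ha => by
    intro x
    show (p : ZMod q) * (-a.f (x + -a.s)) = 0
    rw [mul_neg, ha, neg_zero]

theorem A_comm (a b : A p q) : a * b = b * a := by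
  apply Subtype.ext
  have ha : a.1.s = 0 := a.2
  have hb : b.1.s = 0 := b.2
  apply W.ext
  · funext x
    show a.1.f x + b.1.f (x + a.1.s) = b.1.f x + a.1.f (x + b.1.s)
    rw [ha, hb, add_zero, add_comm]
  · show a.1.s + b.1.s = b.1.s + a.1.s
    rw [add_comm]

/-- The value of `W.f` on powers in `A`. -/
theorem A_pow_f (a : W p q) (ha : a.s = 0) (n : ℕ) (x : ZMod p) :
    (a ^ n).f x = n * a.f x := by
  rw [W.pow_f, ha]
  simp

theorem E_pow (hp : p.Prime) (a : W p q) (ha : a ∈ E p q) : a ^ p = 1 := by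
  have : Fact p.Prime := ⟨hp⟩
  apply W.ext
  · funext x
    by_cases hs : a.s = 0
    · rw [A_pow_f a hs]
      exact ha x
    · rw [W.pow_f, W.one_f]
      have h1 : ∑ i ∈ Finset.range p, a.f (x + i * a.s) = ∑ y : ZMod p, a.f y := by
        refine Finset.sum_bij (fun i _ => x + (i : ZMod p) * a.s) ?_ ?_ ?_ ?_
        · intro i _
          exact Finset.mem_univ _
        · intro i hi j hj hij
          rw [add_right_inj] at hij
          have h2 := mul_right_cancel₀ hs hij
          rw [ZMod.natCast_eq_natCast_iff] at h2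
          exact Nat.ModEq.eq_of_lt_of_lt h2 (Finset.mem_range.1 hi) (Finset.mem_range.1 hj)
        · intro y _
          refine ⟨((y - x) * a.s⁻¹).val, Finset.mem_range.2 (ZMod.val_lt _), ?_⟩
          rw [ZMod.natCast_zmod_val]
          field_simp
          ring
        · intro i _
          rfl
      rw [h1, a.hf]
  · rw [W.pow_s, W.one_s]
    simp

theorem card_W [NeZero q] : Nat.card (W p q) = p * Nat.card (A p q) := by
  have e : W p q ≃ ZMod p × A p q :=
    { toFun := fun a => (a.s, ⟨⟨a.f, 0, a.hf⟩, rfl⟩)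
      invFun := fun b => ⟨b.2.1.f, b.1, b.2.1.hf⟩
      left_inv := fun a => rfl
      right_inv := fun b => by
        apply Prod.ext
        · rfl
        · apply Subtype.ext
          apply W.ext
          · rfl
          · exact b.2.2.symm }
  rw [Nat.card_congr e, Nat.card_prod, Nat.card_zmod]

/-- The element `c (δ_0 - δ_1)` of `A`. -/
def dlt (c : ZMod q) [Fact (1 < p)] : W p q where
  f := Pi.single 0 c - Pi.single 1 c
  s := 0
  hf := by simp

theorem dlt_zero (c : ZMod q) [Fact (1 < p)] : (dlt c : W p q).f 0 = c := by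
  simp [dlt]

/-- The generator of the top group. -/
def top' : W p q where
  f := fun _ => 0
  s := 1
  hf := by simp

omit [NeZero p] in
theorem exists_root {k : ℕ} (hp : p.Prime) {x : ZMod (p ^ (k + 1))}
    (hx : (p : ZMod (p ^ (k + 1))) * x = 0) : ∃ y, x = (p : ZMod (p ^ (k + 1))) ^ k * y := by
  have : NeZero (p ^ (k + 1)) := ⟨pow_ne_zero _ hp.ne_zero⟩
  have h1 : ((p * x.val : ℕ) : ZMod (p ^ (k + 1))) = 0 := by
    rw [Nat.cast_mul, ZMod.natCast_zmod_val]
    exact hx
  rw [ZMod.natCast_eq_zero_iff] at h1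
  obtain ⟨m, hm'⟩ := h1
  have hm : x.val = p ^ k * m := by
    apply Nat.eq_of_mul_eq_mul_left hp.pos
    rw [hm', pow_succ]
    ring
  refine ⟨m, ?_⟩
  have h3 : x = ((x.val : ℕ) : ZMod (p ^ (k + 1))) := (ZMod.natCast_zmod_val x).symm
  rw [h3, hm]
  push_cast
  rfl

/-- `A` is homocyclic: an element killed by `p` is a `p ^ k`-th power. -/
theorem A_root {k : ℕ} (hp : p.Prime) (a : A p (p ^ (k + 1))) (ha : a ^ p = 1) :
    ∃ b : A p (p ^ (k + 1)), b ^ (p ^ k) = a := by
  have h1 : ∀ x, (p : ZMod (p ^ (k + 1))) * a.1.f x = 0 := by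
    intro x
    have h := congrArg (fun z : A p (p ^ (k + 1)) => z.1.f x) ha
    simp only [SubmonoidClass.coe_pow, OneMemClass.coe_one, W.one_f] at h
    rwa [A_pow_f a.1 a.2] at h
  choose g hg using fun x => exists_root hp (h1 x)
  let g' : ZMod p → ZMod (p ^ (k + 1)) := g - Pi.single 0 (∑ x, g x)
  have hg' : ∑ x, g' x = 0 := by
    simp [g']
  have hsum : (p : ZMod (p ^ (k + 1))) ^ k * ∑ x, g x = 0 := by
    rw [Finset.mul_sum, ← a.1.hf]
    exact Finset.sum_congr rfl fun x _ => (hg x).symm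
  refine ⟨⟨⟨g', 0, hg'⟩, rfl⟩, ?_⟩
  apply Subtype.ext
  apply W.ext
  · funext x
    rw [SubmonoidClass.coe_pow, A_pow_f _ rfl]
    show ((p ^ k : ℕ) : ZMod (p ^ (k + 1))) * g' x = a.1.f x
    rw [hg x]
    push_cast
    by_cases hx : x = 0
    · subst hx
      simp only [g', Pi.sub_apply, Pi.single_eq_same, mul_sub, hsum, sub_zero]
    · simp [g', hx]
  · rw [SubmonoidClass.coe_pow, W.pow_s]
    simp only [mul_zero]
    exact a.2.symm

theorem A_pow (k : ℕ) (a : A p (p ^ k)) : a ^ (p ^ k) = 1 := by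
  apply Subtype.ext
  apply W.ext
  · funext x
    rw [SubmonoidClass.coe_pow, A_pow_f _ a.2, ZMod.natCast_self, zero_mul]
    rfl
  · rw [SubmonoidClass.coe_pow, W.pow_s]
    have : a.1.s = 0 := a.2
    rw [this, mul_zero]
    rfl

/-! ### Every group with the two subgroups and of order at most `p |A|` is not LCM -/

theorem not_LCM {k : ℕ} (hp : p.Prime) (hk : 1 ≤ k) (G : FinGroup)
    (i : A p (p ^ (k + 1)) →* G.carrier) (hi : Function.Injective i)
    (j : E p (p ^ (k + 1)) →* G.carrier) (hj : Function.Injective j)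
    (hE : ∃ a b : E p (p ^ (k + 1)), a * b ≠ b * a)
    (hcard : Nat.card G.carrier ≤ p * Nat.card (A p (p ^ (k + 1)))) :
    ¬ IsLCMGroup G.carrier := by
  have : Fact p.Prime := ⟨hp⟩
  have : NeZero (p ^ (k + 1)) := ⟨pow_ne_zero _ hp.ne_zero⟩
  have hrc : Nat.card i.range = Nat.card (A p (p ^ (k + 1))) :=
    Nat.card_congr (MonoidHom.ofInjective hi).toEquiv.symm
  have hA0 : 0 < Nat.card (A p (p ^ (k + 1))) := Nat.card_pos
  have hcomm : ∀ a b, a ∈ i.range → b ∈ i.range → a * b = b * a := by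
    rintro _ _ ⟨a, rfl⟩ ⟨b, rfl⟩
    rw [← map_mul, ← map_mul, A_comm]
  have hEpow : ∀ a : E p (p ^ (k + 1)), a ^ p = 1 := fun a =>
    Subtype.ext (E_pow hp a.1 a.2)
  have hEP : IsPGroup p (E p (p ^ (k + 1))) := fun a => ⟨1, by rw [pow_one]; exact hEpow a⟩
  have hAP : IsPGroup p (A p (p ^ (k + 1))) := fun a => ⟨k + 1, A_pow (k + 1) a⟩
  -- the index of the image of `A` is `p`
  have hnle : ¬ j.range ≤ i.range := by
    intro h
    obtain ⟨a, b, hab⟩ := hE
    apply hab
    apply hj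
    rw [map_mul, map_mul]
    exact hcomm _ _ (h ⟨a, rfl⟩) (h ⟨b, rfl⟩)
  have hidx : i.range.index = p := by
    have h1 : i.range.relIndex j.range ∣ Nat.card j.range := Subgroup.relIndex_dvd_card _ _
    have h2 : Nat.card j.range = Nat.card (E p (p ^ (k + 1))) :=
      Nat.card_congr (MonoidHom.ofInjective hj).toEquiv.symm
    obtain ⟨n, hn⟩ := hEP.exists_card_eq
    rw [h2, hn, Nat.dvd_prime_pow hp] at h1
    obtain ⟨m, -, hm⟩ := h1
    have hm0 : m ≠ 0 := by
      rintro rfl
      rw [pow_zero, Subgroup.relIndex_eq_one] at hm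
      exact hnle hm
    have h3 : p ≤ i.range.relIndex j.range := by
      rw [hm]
      exact Nat.le_self_pow hm0 p
    have h4 : i.range.relIndex j.range ≤ i.range.index := by
      have := Subgroup.relIndex_le_of_le_right (H := i.range) (le_top : j.range ≤ ⊤)
        (by rw [Subgroup.relIndex_top_right]; exact Subgroup.FiniteIndex.index_ne_zero)
      rwa [Subgroup.relIndex_top_right] at this
    have h5 := i.range.card_mul_index
    rw [hrc] at h5
    have h6 : i.range.index ≤ p := by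
      rw [← h5, mul_comm p] at hcard
      exact Nat.le_of_mul_le_mul_left hcard hA0
    omega
  have hcG : Nat.card G.carrier = Nat.card (A p (p ^ (k + 1))) * p := by
    rw [← i.range.card_mul_index, hrc, hidx]
  have hnormal : i.range.Normal := by
    apply Subgroup.normal_of_index_eq_minFac_card
    obtain ⟨n, hn⟩ := hAP.exists_card_eq
    rw [hidx, hcG, hn, ← pow_succ, hp.pow_minFac (by omega)]
  intro hL
  -- an element of `E` outside `A`
  obtain ⟨e, ⟨e', rfl⟩, he⟩ : ∃ e ∈ j.range, e ∉ i.range := by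
    by_contra h
    push Not at h
    exact hnle h
  have hep : (j e') ^ p = 1 := by rw [← map_pow, hEpow, map_one]
  -- it does not centralise the intersection
  obtain ⟨a, ha1, ha2, hae⟩ : ∃ a, a ∈ i.range ∧ a ∈ j.range ∧ a * j e' ≠ j e' * a := by
    by_contra h
    push Not at h
    apply hE.elim
    intro a hab
    obtain ⟨b, hab⟩ := hab
    apply hab
    apply hj
    rw [map_mul, map_mul]
    have hq : ∀ g : G.carrier, ∃ n : ℕ, g * (j e') ^ n ∈ i.range := by
      intro g
      have hcq : Nat.card (G.carrier ⧸ i.range) = p := hidx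
      have hne : (j e' : G.carrier ⧸ i.range) ≠ 1 := fun h0 =>
        he ((QuotientGroup.eq_one_iff _).1 h0)
      have hmem : (g⁻¹ : G.carrier ⧸ i.range) ∈ Subgroup.zpowers (j e' : G.carrier ⧸ i.range) :=
        mem_zpowers_of_prime_card (p := p) hcq hne
      rw [← mem_powers_iff_mem_zpowers, Submonoid.mem_powers_iff] at hmem
      obtain ⟨n, hn⟩ := hmem
      refine ⟨n, ?_⟩
      rw [← QuotientGroup.eq_one_iff, QuotientGroup.mk_mul, QuotientGroup.mk_pow, hn,
        mul_inv_cancel]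
    obtain ⟨n, hn⟩ := hq (j a)
    obtain ⟨m, hm⟩ := hq (j b)
    have hn2 : j a * (j e') ^ n ∈ j.range := j.range.mul_mem ⟨a, rfl⟩ (j.range.pow_mem ⟨e', rfl⟩ n)
    have hm2 : j b * (j e') ^ m ∈ j.range := j.range.mul_mem ⟨b, rfl⟩ (j.range.pow_mem ⟨e', rfl⟩ m)
    have c1 : Commute (j a * (j e') ^ n) (j e') := h _ hn hn2
    have c2 : Commute (j b * (j e') ^ m) (j e') := h _ hm hm2
    have c3 : Commute (j a * (j e') ^ n) (j b * (j e') ^ m) := hcomm _ _ hn hm
    have c4 : Commute (j a) (j e') := by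
      have : j a = (j a * (j e') ^ n) * ((j e') ^ n)⁻¹ := by group
      rw [this]
      exact c1.mul_left ((Commute.refl _).pow_left n).inv_left
    have c5 : Commute (j b) (j e') := by
      have : j b = (j b * (j e') ^ m) * ((j e') ^ m)⁻¹ := by group
      rw [this]
      exact c2.mul_left ((Commute.refl _).pow_left m).inv_left
    have c6 : Commute (j a) (j b * (j e') ^ m) := by
      have : j a = (j a * (j e') ^ n) * ((j e') ^ n)⁻¹ := by group
      rw [this]
      exact c3.mul_left ((c2.pow_right n).symm.inv_left)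
    have c7 : Commute (j a) (j b) := by
      have : j b = (j b * (j e') ^ m) * ((j e') ^ m)⁻¹ := by group
      rw [this]
      exact c6.mul_right ((c4.pow_right m).inv_right)
    exact c7
  obtain ⟨a', rfl⟩ := ha1
  have hap : a' ^ p = 1 := by
    apply hi
    rw [map_pow, map_one]
    obtain ⟨c, hc⟩ := ha2
    rw [← hc, ← map_pow, hEpow, map_one]
  obtain ⟨b, hb⟩ := A_root hp a' hap
  -- the commutator of `b` with `e`
  set e := j e' with he_def
  have hc1 : (i b * e * (i b)⁻¹ * e⁻¹) ^ p = 1 := by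
    have h1 := hL (i b * e * (i b)⁻¹) 1 one_pos e⁻¹
    rw [pow_one] at h1
    have h2 : orderOf (i b * e * (i b)⁻¹) ∣ p := by
      apply orderOf_dvd_of_pow_eq_one
      rw [conj_pow, hep]
      group
    have h3 : orderOf e⁻¹ ∣ p := by
      apply orderOf_dvd_of_pow_eq_one
      rw [inv_pow, hep, inv_one]
    exact orderOf_dvd_iff_pow_eq_one.1 (h1.trans (Nat.lcm_dvd h2 h3))
  have hpow : ∀ n : ℕ, (i b * e * (i b)⁻¹ * e⁻¹) ^ n = i (b ^ n) * e * (i (b ^ n))⁻¹ * e⁻¹ := by
    intro n
    have hcom : Commute (i b) (e * (i b)⁻¹ * e⁻¹) :=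
      hcomm _ _ ⟨b, rfl⟩ (hnormal.conj_mem _ (inv_mem ⟨b, rfl⟩) e)
    have h1 : i b * e * (i b)⁻¹ * e⁻¹ = i b * (e * (i b)⁻¹ * e⁻¹) := by group
    rw [h1, hcom.mul_pow, conj_pow, map_pow, inv_pow]
    group
  have h1 : (i b * e * (i b)⁻¹ * e⁻¹) ^ (p ^ k) = 1 :=
    orderOf_dvd_iff_pow_eq_one.1
      ((orderOf_dvd_of_pow_eq_one hc1).trans (dvd_pow_self p (by omega)))
  rw [hpow, hb] at h1
  apply hae
  have h2 : i a' * e * (i a')⁻¹ = e := by
    rw [mul_inv_eq_one] at h1
    exact h1
  calc i a' * e = (i a' * e * (i a')⁻¹) * i a' := by group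
    _ = e * i a' := by rw [h2]

/-! ### The families -/

/-- The group `W` as a finite group. -/
def WG (p k : ℕ) [NeZero p] : FinGroup :=
  have : NeZero (p ^ (k + 2)) := ⟨pow_ne_zero _ (NeZero.ne p)⟩
  ⟨W p (p ^ (k + 2))⟩

/-- The group `A` as a finite group. -/
def AG (p k : ℕ) [NeZero p] : FinGroup :=
  have : NeZero (p ^ (k + 2)) := ⟨pow_ne_zero _ (NeZero.ne p)⟩
  ⟨A p (p ^ (k + 2))⟩

/-- The group `E` as a finite group. -/
def EG (p k : ℕ) [NeZero p] : FinGroup :=
  have : NeZero (p ^ (k + 2)) := ⟨pow_ne_zero _ (NeZero.ne p)⟩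
  ⟨E p (p ^ (k + 2))⟩

theorem E_not_comm (hp : p.Prime) (hp2 : p ≠ 2) (k : ℕ) :
    ∃ a b : E p (p ^ (k + 1)), a * b ≠ b * a := by
  have : Fact p.Prime := ⟨hp⟩
  have : Fact (1 < p) := ⟨hp.one_lt⟩
  have hne : NeZero (p ^ (k + 1)) := ⟨pow_ne_zero _ hp.ne_zero⟩
  let c : ZMod (p ^ (k + 1)) := (p : ZMod (p ^ (k + 1))) ^ k
  have hpc : (p : ZMod (p ^ (k + 1))) * c = 0 := by
    have : (p : ZMod (p ^ (k + 1))) * c = ((p ^ (k + 1) : ℕ) : ZMod (p ^ (k + 1))) := by
      simp only [c]
      push_cast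
      ring
    rw [this, ZMod.natCast_self]
  have hc : c ≠ 0 := by
    intro h
    have h1 : ((p ^ k : ℕ) : ZMod (p ^ (k + 1))) = 0 := by
      push_cast
      exact h
    rw [ZMod.natCast_eq_zero_iff] at h1
    exact absurd (Nat.le_of_dvd (pow_pos hp.pos _) h1)
      (not_le.2 (Nat.pow_lt_pow_right hp.one_lt (Nat.lt_succ_self k)))
  have h01 : (0 : ZMod p) ≠ 1 := zero_ne_one
  have h21 : (1 : ZMod p) + 1 ≠ 0 := by
    intro h
    have h1 : ((2 : ℕ) : ZMod p) = 0 := by
      push_cast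
      rw [← h]
      norm_num
    rw [ZMod.natCast_eq_zero_iff] at h1
    rcases (Nat.dvd_prime Nat.prime_two).1 h1 with h2 | h2
    · exact hp.one_lt.ne' h2
    · exact hp2 h2
  refine ⟨⟨dlt c, ?_⟩, ⟨top', ?_⟩, ?_⟩
  · intro x
    by_cases h0 : x = 0
    · simp [dlt, h0, hpc]
    · by_cases h1 : x = 1
      · simp [dlt, h1, hpc]
      · simp [dlt, h0, h1]
  · intro x
    simp [top']
  · intro h
    have h1 := congrArg (fun z : E p (p ^ (k + 1)) => z.1.f 0) h
    have h2 : (dlt c : W p (p ^ (k + 1))).f 0 + 0 =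
        0 + (dlt c : W p (p ^ (k + 1))).f (0 + 1) := h1
    rw [dlt_zero, add_zero, zero_add, zero_add] at h2
    have h3 : (dlt c : W p (p ^ (k + 1))).f 1 = -c := by
      simp [dlt]
    rw [h3] at h2
    have h4 : ((2 : ℕ) : ZMod (p ^ (k + 1))) * c = 0 := by
      push_cast
      rw [two_mul]
      nth_rewrite 1 [h2]
      ring
    have h5 : ((2 * p ^ k : ℕ) : ZMod (p ^ (k + 1))) = 0 := by
      push_cast
      push_cast at h4
      exact h4
    rw [ZMod.natCast_eq_zero_iff, pow_succ, mul_comm] at h5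
    have h6 : p ∣ 2 := Nat.dvd_of_mul_dvd_mul_right (pow_pos hp.pos k) h5
    rcases (Nat.dvd_prime Nat.prime_two).1 h6 with h7 | h7
    · exact hp.one_lt.ne' h7
    · exact hp2 h7

/-- The sets of groups of the theorem. -/
def Fam (p : ℕ) [NeZero p] (k : ℕ) : Set FinGroup := {EG p k, AG p k}

theorem AG_isPGroup (k : ℕ) : IsPGroup p (AG p k).carrier := fun a => ⟨k + 2, A_pow (k + 2) a⟩

theorem EG_pow (hp : p.Prime) (k : ℕ) (a : (EG p k).carrier) : a ^ p = 1 :=
  Subtype.ext (E_pow hp a.1 a.2)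

theorem AG_comm (k : ℕ) (a b : (AG p k).carrier) : a * b = b * a := A_comm a b

theorem EG_not_comm (hp : p.Prime) (hp2 : p ≠ 2) (k : ℕ) :
    ∃ a b : (EG p k).carrier, a * b ≠ b * a := E_not_comm hp hp2 (k + 1)

theorem AG_lcm (k : ℕ) : IsLCMGroup (AG p k).carrier := by
  intro x n _ y
  exact (show Commute (x ^ n) y from AG_comm k _ _).orderOf_mul_dvd_lcm

theorem EG_lcm (hp : p.Prime) (k : ℕ) : IsLCMGroup (EG p k).carrier := by
  intro x n _ y
  have h1 : ∀ z : (EG p k).carrier, orderOf z = 1 ∨ orderOf z = p := fun z =>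
    (Nat.dvd_prime hp).1 (orderOf_dvd_of_pow_eq_one (EG_pow hp k z))
  rcases h1 (x ^ n) with h2 | h2
  · have h3 : x ^ n = 1 := orderOf_eq_one_iff.1 h2
    rw [h3, one_mul]
    exact Nat.dvd_lcm_right _ _
  · refine dvd_trans ?_ (Nat.dvd_lcm_left _ _)
    rw [h2]
    exact orderOf_dvd_of_pow_eq_one (EG_pow hp k _)

/-- `AG p l` has an element whose `p ^ (l + 1)`-th power is not trivial. -/
theorem AG_order (hp : p.Prime) (l : ℕ) : ∃ a : (AG p l).carrier, a ^ (p ^ (l + 1)) ≠ 1 := by
  have : Fact (1 < p) := ⟨hp.one_lt⟩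
  have hne : NeZero (p ^ (l + 2)) := ⟨pow_ne_zero _ hp.ne_zero⟩
  refine ⟨(⟨dlt 1, rfl⟩ : A p (p ^ (l + 2))), ?_⟩
  intro h
  have h1 := congrArg (fun z : A p (p ^ (l + 2)) => z.1.f 0) h
  have h2 : ((dlt 1 : W p (p ^ (l + 2))) ^ (p ^ (l + 1))).f 0 = 0 := h1
  rw [A_pow_f _ rfl, dlt_zero, mul_one, ZMod.natCast_eq_zero_iff] at h2
  exact absurd (Nat.le_of_dvd (pow_pos hp.pos _) h2)
    (not_le.2 (Nat.pow_lt_pow_right hp.one_lt (Nat.lt_succ_self _)))

theorem not_same (hp : p.Prime) (hp2 : p ≠ 2) {k l : ℕ} (hkl : k < l) :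
    ¬ ∃ Y ∈ Fam p k, Nonempty ((AG p l).carrier ≃* Y.carrier) := by
  rintro ⟨Y, hY, ⟨e⟩⟩
  rcases hY with rfl | rfl
  · obtain ⟨a, b, hab⟩ := EG_not_comm (p := p) hp hp2 k
    apply hab
    apply e.symm.injective
    rw [map_mul, map_mul]
    exact AG_comm l _ _
  · obtain ⟨a, ha⟩ := AG_order (p := p) hp l
    apply ha
    apply e.injective
    rw [map_pow, map_one]
    have h1 : (e a) ^ (p ^ (k + 2)) = 1 := A_pow (k + 2) (e a)
    exact orderOf_dvd_iff_pow_eq_one.1
      ((orderOf_dvd_of_pow_eq_one h1).trans (pow_dvd_pow p (by omega)))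

theorem W_cover (p k : ℕ) [NeZero p] : IsCover (Fam p k) (WG p k) := by
  rintro X (rfl | rfl)
  · exact ⟨(E p (p ^ (k + 2))).subtype, Subtype.val_injective⟩
  · exact ⟨(A p (p ^ (k + 2))).subtype, Subtype.val_injective⟩

/-- For every odd prime `p` there is an infinite sequence of finite sets of LCM-`p`-groups, no two
of which are the same up to isomorphism of their members, such that for every set in the sequence
minimum covers exist and every minimum cover fails to be an LCM-group. -/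
theorem result (p : ℕ) (hp : p.Prime) (hp2 : p ≠ 2) :
    ∃ F : ℕ → Set FinGroup,
      (∀ k, (F k).Finite ∧
        (∀ X ∈ F k, IsPGroup p X.carrier ∧ IsLCMGroup X.carrier) ∧
        (∃ G : FinGroup, IsMinCover (F k) G) ∧
        (∀ G : FinGroup, IsMinCover (F k) G → ¬ IsLCMGroup G.carrier)) ∧
      ∀ k l, k ≠ l → ¬ SameUpToIso (F k) (F l) := by
  have : NeZero p := ⟨hp.ne_zero⟩
  refine ⟨Fam p, fun k => ⟨?_, ?_, ?_, ?_⟩, ?_⟩
  · exact (Set.finite_singleton _).insert _
  · rintro X (rfl | rfl)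
    · exact ⟨fun a => ⟨1, by rw [pow_one]; exact EG_pow hp k a⟩, EG_lcm hp k⟩
    · exact ⟨AG_isPGroup k, AG_lcm k⟩
  · classical
    have hex : ∃ n, ∃ G : FinGroup, IsCover (Fam p k) G ∧ Nat.card G.carrier = n :=
      ⟨_, WG p k, W_cover p k, rfl⟩
    obtain ⟨G, hG, hn⟩ := Nat.find_spec hex
    refine ⟨G, hG, fun H hH => ?_⟩
    rw [hn]
    exact Nat.find_min' hex ⟨H, hH, rfl⟩
  · intro G hG
    have hne : NeZero (p ^ (k + 2)) := ⟨pow_ne_zero _ hp.ne_zero⟩
    obtain ⟨j, hj⟩ := hG.1 (EG p k) (Or.inl rfl)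
    obtain ⟨i, hi⟩ := hG.1 (AG p k) (Or.inr rfl)
    refine not_LCM (k := k + 1) hp (by omega) G i hi j hj (E_not_comm hp hp2 (k + 1)) ?_
    rw [← card_W]
    exact hG.2 (WG p k) (W_cover p k)
  · intro k l hkl hs
    rcases Nat.lt_or_gt_of_ne hkl with h | h
    · exact not_same hp hp2 h (hs.2 (AG p l) (Or.inr rfl))
    · exact not_same hp hp2 h (hs.1 (AG p k) (Or.inr rfl))

end Pool.Agent.Results.MP_8c719a_al.MinCovers
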